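import Mathlib
import Pool.Agent.R158.Denniston

set_option autoImplicit false

/-!
# Superpolynomially many `k`-dominating independent sets in incidence graphs of projective planes

In `PG(2, 2 ^ h)` every additive subgroup `A` of the field, of order `2 ^ a` with `a = ⌊h / 2⌋`, gives
a Denniston arc. Its points and the lines missing it form a `2 ^ a`-dominating independent set. There
are at least `2 ^ (a (h - a))` such subgroups.
-/

namespace Pool.Agent.Results.MP_a51b5f_co.Superpolynomial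

open Configuration
open scoped LinearAlgebra.Projectivization

/-- `D` is a `k`-dominating independent set of the graph `G`: it spans no edge, and every vertex
outside `D` has at least `k` neighbours in `D`. -/
def IsKDIS {V : Type} (G : SimpleGraph V) (k : ℕ) (D : Set V) : Prop :=
  (∀ v ∈ D, ∀ w ∈ D, ¬ G.Adj v w) ∧ ∀ v ∉ D, k ≤ {w | w ∈ D ∧ G.Adj v w}.ncard

/-- The number of `k`-dominating independent sets of `G`. -/
noncomputable def numKDIS {V : Type} (G : SimpleGraph V) (k : ℕ) : ℕ := {D : Set V | IsKDIS G k D}.ncard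

/-- The incidence graph of a plane, on the disjoint union of the points and the lines. -/
def incidenceGraph (P L : Type) [Membership P L] : SimpleGraph (P ⊕ L) :=
  SimpleGraph.fromRel (fun x y => ∃ (p : P) (l : L), x = Sum.inl p ∧ y = Sum.inr l ∧ p ∈ l)

/-- `N` is the number of `k`-dominating independent sets of an incidence graph, with `n` vertices, of
a finite projective plane. -/
def Occurs (k n N : ℕ) : Prop :=
  ∃ (P L : Type) (_ : Membership P L) (_ : ProjectivePlane P L) (_ : Finite P) (_ : Finite L),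
    Nat.card (P ⊕ L) = n ∧ numKDIS (incidenceGraph P L) k = N

/-- `mi_k(n, 𝓕)`: the largest number of `k`-dominating independent sets in an incidence graph with `n`
vertices of a finite projective plane (it is meaningful when there is such a graph). -/
noncomputable def mi (k n : ℕ) : ℕ := sSup {N | Occurs k n N}

lemma adj_iff {P L : Type} [Membership P L] (p : P) (l : L) :
    (incidenceGraph P L).Adj (Sum.inl p) (Sum.inr l) ↔ p ∈ l := by
  simp [incidenceGraph, SimpleGraph.fromRel_adj]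

lemma adj_iff' {P L : Type} [Membership P L] (p : P) (l : L) :
    (incidenceGraph P L).Adj (Sum.inr l) (Sum.inl p) ↔ p ∈ l := by
  rw [SimpleGraph.adj_comm, adj_iff]

lemma not_adj_ll {P L : Type} [Membership P L] (p p' : P) :
    ¬ (incidenceGraph P L).Adj (Sum.inl p) (Sum.inl p') := by
  simp [incidenceGraph, SimpleGraph.fromRel_adj]

lemma not_adj_rr {P L : Type} [Membership P L] (l l' : L) :
    ¬ (incidenceGraph P L).Adj (Sum.inr l) (Sum.inr l') := by
  simp [incidenceGraph, SimpleGraph.fromRel_adj]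

lemma occurs_le {k n N : ℕ} (h : Occurs k n N) : N ≤ 2 ^ n := by
  obtain ⟨P, L, _, _, _, _, h1, rfl⟩ := h
  have : Fintype P := Fintype.ofFinite P
  have : Fintype L := Fintype.ofFinite L
  rw [← h1, numKDIS, Set.ncard_def, ← Set.ncard_def]
  calc {D : Set (P ⊕ L) | IsKDIS (incidenceGraph P L) k D}.ncard
      ≤ (Set.univ : Set (Set (P ⊕ L))).ncard := Set.ncard_le_ncard (Set.subset_univ _)
    _ = 2 ^ Nat.card (P ⊕ L) := by
      rw [Set.ncard_univ, Nat.card_eq_fintype_card, Fintype.card_set, Nat.card_eq_fintype_card]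

lemma le_mi {k n N : ℕ} (h : Occurs k n N) : N ≤ mi k n :=
  le_csSup ⟨2 ^ n, fun _ h' => occurs_le h'⟩ h

section core
variable {F : Type} [Field F] [Fintype F] [CharP F 2]

open Pool.Agent.R158.Denniston

/-- the set of vertices: the points of the arc and the lines missing it -/
def DD (β : F) (A : AddSubgroup F) : Set (ℙ F (Fin 3 → F) ⊕ ℙ F (Fin 3 → F)) :=
  {v | (∃ P ∈ K β A, v = Sum.inl P) ∨ ∃ l : ℙ F (Fin 3 → F), (∀ R ∈ K β A, R ∉ l) ∧ v = Sum.inr l}

omit [CharP F 2] in
lemma mem_l (β : F) (A : AddSubgroup F) (P : ℙ F (Fin 3 → F)) :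
    Sum.inl P ∈ DD β A ↔ P ∈ K β A := by
  simp [DD]

omit [CharP F 2] in
lemma mem_r (β : F) (A : AddSubgroup F) (l : ℙ F (Fin 3 → F)) :
    Sum.inr l ∈ DD β A ↔ ∀ R ∈ K β A, R ∉ l := by
  simp [DD]

lemma isKDIS {β : F} (hβ : ∀ z : F, z ^ 2 + z + β ≠ 0) (A : AddSubgroup F) (k : ℕ)
    (h1 : k ≤ Nat.card A) (h2 : k * Nat.card A ≤ Fintype.card F) :
    IsKDIS (incidenceGraph (ℙ F (Fin 3 → F)) (ℙ F (Fin 3 → F))) k (DD β A) := by
  classical
  constructor
  · rintro (P | l) hv (P' | l') hw h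
    · exact not_adj_ll _ _ h
    · rw [adj_iff] at h
      rw [mem_l] at hv
      rw [mem_r] at hw
      exact hw P hv h
    · rw [adj_iff'] at h
      rw [mem_l] at hw
      rw [mem_r] at hv
      exact hv P' hw h
    · exact not_adj_rr _ _ h
  · rintro (P | l) hv
    · rw [mem_l] at hv
      have h3 := exterior_count hβ A P hv
      set E := Finset.univ.filter
        (fun l : ℙ F (Fin 3 → F) => P ∈ l ∧ ∀ R ∈ K β A, R ∉ l) with hE
      have hk : k ≤ E.card := by
        by_contra hcon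
        push Not at hcon
        have hpos : 0 < Nat.card A := Nat.card_pos
        have : E.card * Nat.card A < k * Nat.card A := Nat.mul_lt_mul_of_pos_right hcon hpos
        omega
      refine hk.trans ?_
      have h4 : (E : Set (ℙ F (Fin 3 → F))).ncard = E.card := Set.ncard_coe_finset E
      rw [← h4, ← Set.ncard_image_of_injective (E : Set (ℙ F (Fin 3 → F)))
        (Sum.inr_injective : Function.Injective
          (Sum.inr : ℙ F (Fin 3 → F) → ℙ F (Fin 3 → F) ⊕ ℙ F (Fin 3 → F)))]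
      refine Set.ncard_le_ncard ?_ (Set.toFinite _)
      rintro _ ⟨l, hl, rfl⟩
      rw [Finset.mem_coe, hE, Finset.mem_filter] at hl
      exact ⟨(mem_r β A l).2 hl.2.2, (adj_iff _ _).2 hl.2.1⟩
    · rw [mem_r] at hv
      push Not at hv
      obtain ⟨R, hR, hRl⟩ := hv
      have h3 := line_count_K β A l ⟨R, Finset.mem_filter.2 ⟨hR, hRl⟩⟩
      set E := (K β A).filter (fun P => P ∈ l) with hE
      refine (h1.trans h3).trans ?_
      have h4 : (E : Set (ℙ F (Fin 3 → F))).ncard = E.card := Set.ncard_coe_finset E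
      rw [← h4, ← Set.ncard_image_of_injective (E : Set (ℙ F (Fin 3 → F)))
        (Sum.inl_injective : Function.Injective
          (Sum.inl : ℙ F (Fin 3 → F) → ℙ F (Fin 3 → F) ⊕ ℙ F (Fin 3 → F)))]
      refine Set.ncard_le_ncard ?_ (Set.toFinite _)
      rintro _ ⟨P, hP, rfl⟩
      rw [Finset.mem_coe, hE, Finset.mem_filter] at hP
      exact ⟨(mem_l β A P).2 hP.1, (adj_iff' _ _).2 hP.2⟩

lemma DD_inj (β : F) : Function.Injective (DD β) := by
  intro A B h
  apply K_inj β
  ext P
  rw [← mem_l, ← mem_l, h]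

end core

/-- the number of additive subgroups of order `2 ^ a` of a field with `2 ^ h` elements -/
lemma many_subgroups (h a : ℕ) (hh : h ≠ 0) (ha : a ≤ h) :
    ∃ S : ((Fin a → ZMod 2) →ₗ[ZMod 2] (Fin (h - a) → ZMod 2)) → AddSubgroup (GaloisField 2 h),
      Function.Injective S ∧ ∀ T, Nat.card (S T) = 2 ^ a := by
  have h1 : Module.finrank (ZMod 2) (GaloisField 2 h) =
      Module.finrank (ZMod 2) ((Fin a → ZMod 2) × (Fin (h - a) → ZMod 2)) := by
    rw [GaloisField.finrank 2 hh, Module.finrank_prod, Module.finrank_fin_fun,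
      Module.finrank_fin_fun]
    omega
  obtain ⟨e⟩ := FiniteDimensional.nonempty_linearEquiv_of_finrank_eq h1
  refine ⟨fun T => (T.graph.comap e.toLinearMap).toAddSubgroup, ?_, ?_⟩
  · intro T T' hT
    have h2 : T.graph = T'.graph := by
      have h3 := Submodule.toAddSubgroup_injective hT
      ext x
      have h4 : e.symm x ∈ T.graph.comap e.toLinearMap ↔ e.symm x ∈ T'.graph.comap e.toLinearMap := by
        rw [h3]
      simpa using h4
    apply LinearMap.ext
    intro x
    have h5 : (x, T x) ∈ T'.graph := by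
      rw [← h2, LinearMap.mem_graph_iff]
    rw [LinearMap.mem_graph_iff] at h5
    exact h5
  · intro T
    have h2 : Nat.card (Fin a → ZMod 2) = 2 ^ a := by simp
    rw [← h2]
    apply Nat.card_congr
    exact
      { toFun := fun x => (e x.1).1
        invFun := fun v => ⟨e.symm (v, T v), by
          show e (e.symm (v, T v)) ∈ T.graph
          rw [e.apply_symm_apply, LinearMap.mem_graph_iff]⟩
        left_inv := by
          rintro ⟨x, hx⟩
          have hx' : e x ∈ T.graph := hx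
          rw [LinearMap.mem_graph_iff] at hx'
          apply Subtype.ext
          show e.symm ((e x).1, T (e x).1) = x
          rw [← hx', Prod.mk.eta, e.symm_apply_apply]
        right_inv := by
          intro v
          show (e (e.symm (v, T v))).1 = v
          rw [e.apply_symm_apply] }

/-- The lower bound for the number of `k`-dominating independent sets of the incidence graph of
`PG(2, 2 ^ h)`. -/
lemma lower (k h a : ℕ) (hh : h ≠ 0) (ha : a ≤ h) (h1 : k ≤ 2 ^ a) (h2 : k ≤ 2 ^ (h - a)) :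
    2 ^ (a * (h - a)) ≤ numKDIS (incidenceGraph (ℙ (GaloisField 2 h) (Fin 3 → GaloisField 2 h))
      (ℙ (GaloisField 2 h) (Fin 3 → GaloisField 2 h))) k := by
  have : Fintype (GaloisField 2 h) := Fintype.ofFinite _
  have hcard : Fintype.card (GaloisField 2 h) = 2 ^ h := by
    rw [← Nat.card_eq_fintype_card, GaloisField.card 2 h hh]
  obtain ⟨β, hβ⟩ := Pool.Agent.R158.Denniston.exists_beta (F := GaloisField 2 h)
  obtain ⟨S, hS, hS'⟩ := many_subgroups h a hh ha
  have h3 : Nat.card ((Fin a → ZMod 2) →ₗ[ZMod 2] (Fin (h - a) → ZMod 2)) = 2 ^ (a * (h - a)) := by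
    rw [Nat.card_congr (LinearMap.toMatrix' (R := ZMod 2) (n := Fin a)
      (m := Fin (h - a))).toEquiv]
    show Nat.card (Fin (h - a) → Fin a → ZMod 2) = 2 ^ (a * (h - a))
    rw [Nat.card_eq_fintype_card]
    simp [pow_mul]
  rw [← h3, numKDIS]
  rw [← Nat.card_coe_set_eq]
  apply Nat.card_le_card_of_injective
    (fun T => (⟨DD β (S T), isKDIS hβ (S T) k (by rw [hS']; exact h1) (by
      rw [hS', hcard]
      calc k * 2 ^ a ≤ 2 ^ (h - a) * 2 ^ a := Nat.mul_le_mul_right _ h2
        _ = 2 ^ h := by rw [← pow_add]; congr 1; omega)⟩ :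
        {D // IsKDIS (incidenceGraph (ℙ (GaloisField 2 h) (Fin 3 → GaloisField 2 h))
      (ℙ (GaloisField 2 h) (Fin 3 → GaloisField 2 h))) k D}))
  intro T T' hT
  exact hS (DD_inj β (congrArg Subtype.val hT))

lemma arith (C c : ℝ) (m h j n N : ℕ) (hm1 : C ≤ 2 ^ m) (hm2 : c ≤ m) (hj : j = 8 * m + 8)
    (hhd : h = 2 * j) (hn1 : n ≤ 2 ^ (2 * h + 3)) (hn0 : 1 ≤ n) (h10 : 2 ^ (j * (h - j)) ≤ N) :
    C * (n : ℝ) ^ c < (N : ℝ) := by
  have hn1' : (n : ℝ) ≤ 2 ^ (2 * h + 3) := by exact_mod_cast hn1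
  have hn0' : (1 : ℝ) ≤ n := by exact_mod_cast hn0
  have h5 : (n : ℝ) ^ c ≤ 2 ^ ((2 * h + 3) * m) := by
    calc (n : ℝ) ^ c ≤ (n : ℝ) ^ (m : ℝ) := Real.rpow_le_rpow_of_exponent_le hn0' hm2
      _ = (n : ℝ) ^ m := Real.rpow_natCast _ _
      _ ≤ (2 ^ (2 * h + 3)) ^ m := pow_le_pow_left₀ (by linarith) hn1' m
      _ = _ := by rw [pow_mul]
  have h6 : (0 : ℝ) ≤ (n : ℝ) ^ c := Real.rpow_nonneg (by linarith) c
  have h7 : C * (n : ℝ) ^ c ≤ 2 ^ m * 2 ^ ((2 * h + 3) * m) :=
    mul_le_mul hm1 h5 h6 (pow_nonneg (by norm_num) _)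
  have h8 : m + (2 * h + 3) * m < j * (h - j) := by
    have : h - j = j := by omega
    rw [this, hhd, hj]
    nlinarith
  have h9 : (2 : ℝ) ^ (m + (2 * h + 3) * m) < 2 ^ (j * (h - j)) :=
    pow_lt_pow_right₀ (by norm_num) h8
  rw [pow_add] at h9
  have h10' : (2 : ℝ) ^ (j * (h - j)) ≤ (N : ℝ) := by exact_mod_cast h10
  linarith

/-- (1) For `k ≤ 2 ^ ⌊h / 2⌋` the incidence graph of `PG(2, 2 ^ h)` has at least
`2 ^ (⌊h / 2⌋ ⌈h / 2⌉)` `k`-dominating independent sets. (2) So for every `k ≥ 1` the function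
`mi_k(n, 𝓕)` is not bounded by a polynomial in `n`: for all constants `C`, `c` there is a number `n` of
vertices of an incidence graph of a finite projective plane with `C n ^ c < mi_k(n, 𝓕)`. -/
theorem result :
    (∀ k h : ℕ, h ≠ 0 → k ≤ 2 ^ (h / 2) →
      2 ^ ((h / 2) * (h - h / 2)) ≤
        numKDIS (incidenceGraph (ℙ (GaloisField 2 h) (Fin 3 → GaloisField 2 h))
          (ℙ (GaloisField 2 h) (Fin 3 → GaloisField 2 h))) k) ∧
    ∀ k : ℕ, 1 ≤ k → ∀ C c : ℝ, ∃ n : ℕ, (∃ N, Occurs k n N) ∧ C * (n : ℝ) ^ c < (mi k n : ℝ) := by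
  classical
  refine ⟨?_, ?_⟩
  · intro k h hh hk
    apply lower k h (h / 2) hh (by omega) hk
    refine hk.trans (Nat.pow_le_pow_right (by norm_num) (by omega))
  · intro k _ C c
    -- natural numbers bounding the constants
    obtain ⟨m, hm1, hm2, hm3⟩ : ∃ m : ℕ, C ≤ 2 ^ m ∧ c ≤ m ∧ k ≤ 2 ^ m := by
      obtain ⟨m1, h1⟩ := exists_nat_ge C
      obtain ⟨m2, h2⟩ := exists_nat_ge c
      refine ⟨m1 + m2 + k, ?_, ?_, ?_⟩
      · have h3 : ((m1 : ℕ) : ℝ) ≤ ((2 ^ m1 : ℕ) : ℝ) := by exact_mod_cast Nat.lt_two_pow_self.le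
        have h4 : (2 : ℝ) ^ m1 ≤ 2 ^ (m1 + m2 + k) := by
          apply pow_le_pow_right₀ (by norm_num); omega
        push_cast at h3
        linarith
      · push_cast
        have : (0 : ℝ) ≤ m1 := Nat.cast_nonneg _
        have : (0 : ℝ) ≤ k := Nat.cast_nonneg _
        linarith
      · calc k ≤ 2 ^ k := Nat.lt_two_pow_self.le
          _ ≤ _ := Nat.pow_le_pow_right (by norm_num) (by omega)
    obtain ⟨j, hj⟩ : ∃ j : ℕ, j = 8 * m + 8 := ⟨_, rfl⟩
    obtain ⟨h, hhd⟩ : ∃ h : ℕ, h = 2 * j := ⟨_, rfl⟩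
    have hh : h ≠ 0 := by omega
    have hlow := lower k h j hh (by omega)
      (hm3.trans (Nat.pow_le_pow_right (by norm_num) (by omega)))
      (hm3.trans (Nat.pow_le_pow_right (by norm_num) (by omega)))
    have : Fintype (GaloisField 2 h) := Fintype.ofFinite _
    set Pl := ℙ (GaloisField 2 h) (Fin 3 → GaloisField 2 h) with hPl
    set n := Nat.card (Pl ⊕ Pl) with hn
    have hocc : Occurs k n (numKDIS (incidenceGraph Pl Pl) k) :=
      ⟨Pl, Pl, inferInstance, inferInstance, inferInstance, inferInstance, rfl, rfl⟩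
    refine ⟨n, ⟨_, hocc⟩, ?_⟩
    have hmi := le_mi hocc
    have hcardF : Nat.card (GaloisField 2 h) = 2 ^ h := GaloisField.card 2 h hh
    have : Fintype Pl := Fintype.ofFinite _
    have hcardP : Nat.card Pl = (2 ^ h) ^ 2 + 2 ^ h + 1 := by
      rw [Nat.card_eq_fintype_card, ProjectivePlane.card_points Pl Pl]
      rw [Pool.Agent.R158.Plane.order_pg, hcardF]
    have hn1 : n ≤ 2 ^ (2 * h + 3) := by
      rw [hn, Nat.card_sum, hcardP]
      have h1 : 2 ^ h ≤ (2 ^ h) ^ 2 := Nat.le_self_pow (by norm_num) _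
      have h2 : 1 ≤ 2 ^ h := Nat.one_le_two_pow
      have h3 : 2 ^ (2 * h + 3) = 8 * (2 ^ h) ^ 2 := by
        rw [pow_add, mul_comm 2 h, pow_mul]; ring
      rw [h3]
      omega
    have hn0 : 1 ≤ n := by
      rw [hn, Nat.card_sum, hcardP]
      omega
    have h10 : 2 ^ (j * (h - j)) ≤ mi k n := hlow.trans hmi
    clear_value n
    clear hlow hocc hmi hcardF hcardP hn
    exact arith C c m h j n (mi k n) hm1 hm2 hj hhd hn1 hn0 h10

end Pool.Agent.Results.MP_a51b5f_co.Superpolynomial
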